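import Mathlib
import Pool.Graph.R_pool_sql_team_seeded_620a6dc7.Helper714_HW.Upper
import Pool.Graph.R_pool_sql_team_seeded_620a6dc7.Helper714_HW.Low5

set_option autoImplicit false

open Set Metric MeasureTheory Complex Filter Topology
open scoped NNReal ENNReal

namespace Pool.Agent.Results.MP_0a9e96_an.LinesAndCircles

/-- it is enough to bound bounded univalent functions -/
lemma of_bounded (C : ENNReal)
    (h : ∀ f : ℂ → ℂ, DifferentiableOn ℂ f (ball (0:ℂ) 1) → InjOn f (ball (0:ℂ) 1) →
      Bornology.IsBounded (f '' ball (0:ℂ) 1) →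
      μH[1] {z ∈ ball (0:ℂ) 1 | (f z).im = 0} ≤ C) (f : ℂ → ℂ)
    (hf : DifferentiableOn ℂ f (ball (0:ℂ) 1)) (hi : InjOn f (ball (0:ℂ) 1)) :
    μH[1] {z ∈ ball (0:ℂ) 1 | (f z).im = 0} ≤ C := by
  have hr : ∀ n : ℕ, μH[1] {z ∈ ball (0 : ℂ) ((n + 1 : ℝ) / (n + 2)) | (f z).im = 0} ≤ C := by
    intro n
    set r : ℝ := (n + 1 : ℝ) / (n + 2) with hrdef
    have hr0 : 0 < r := by positivity
    have hr1 : r < 1 := by
      rw [hrdef, div_lt_one (by positivity)]
      linarith
    have hmem : ∀ z ∈ ball (0 : ℂ) 1, (r : ℂ) * z ∈ closedBall (0 : ℂ) r := by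
      intro z hz
      rw [mem_closedBall_zero_iff, norm_mul, Complex.norm_real, Real.norm_of_nonneg hr0.le]
      have : ‖z‖ < 1 := by simpa using hz
      nlinarith
    have hsub : closedBall (0 : ℂ) r ⊆ ball 0 1 := closedBall_subset_ball hr1
    have h1 := h (fun z => f ((r : ℂ) * z))
      (hf.comp ((differentiableOn_const _).mul differentiableOn_id)
        (fun z hz => hsub (hmem z hz)))
      (by
        intro z hz w hw h
        have := hi (hsub (hmem z hz)) (hsub (hmem w hw)) h
        exact mul_left_cancel₀ (by exact_mod_cast hr0.ne') this)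
      (by
        have hc : IsCompact (f '' closedBall (0 : ℂ) r) :=
          (isCompact_closedBall 0 r).image_of_continuousOn (hf.continuousOn.mono hsub)
        apply hc.isBounded.subset
        rintro _ ⟨z, hz, rfl⟩
        exact ⟨(r : ℂ) * z, hmem z hz, rfl⟩)
    have himg : {z ∈ ball (0 : ℂ) r | (f z).im = 0} ⊆
        (fun z : ℂ => (r : ℂ) * z) '' {z ∈ ball (0 : ℂ) 1 | (f ((r : ℂ) * z)).im = 0} := by
      rintro z ⟨hz, him⟩
      have hz' : ‖z‖ < r := by simpa using hz
      have hrc : (r : ℂ) ≠ 0 := by exact_mod_cast hr0.ne'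
      refine ⟨z / r, ⟨?_, ?_⟩, ?_⟩
      · rw [mem_ball_zero_iff, norm_div, Complex.norm_real, Real.norm_of_nonneg hr0.le,
          div_lt_one hr0]
        exact hz'
      · show (f ((r : ℂ) * (z / r))).im = 0
        rw [mul_div_cancel₀ _ hrc]
        exact him
      · show (r : ℂ) * (z / r) = z
        rw [mul_div_cancel₀ _ hrc]
    have hlip : LipschitzWith 1 (fun z : ℂ => (r : ℂ) * z) := by
      apply LipschitzWith.of_dist_le_mul
      intro z w
      rw [NNReal.coe_one, one_mul, dist_eq_norm, dist_eq_norm, ← mul_sub, norm_mul,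
        Complex.norm_real, Real.norm_of_nonneg hr0.le]
      nlinarith [norm_nonneg (z - w)]
    have h2 := hlip.hausdorffMeasure_image_le (d := 1) (by norm_num)
      {z ∈ ball (0 : ℂ) 1 | (f ((r : ℂ) * z)).im = 0}
    rw [ENNReal.coe_one, ENNReal.one_rpow, one_mul] at h2
    exact (measure_mono himg).trans (h2.trans h1)
  have hmono : Monotone (fun n : ℕ => {z ∈ ball (0 : ℂ) ((n + 1 : ℝ) / (n + 2)) | (f z).im = 0}) := by
    intro n m hnm z hz
    refine ⟨?_, hz.2⟩
    apply ball_subset_ball _ hz.1
    have : (n : ℝ) ≤ m := by exact_mod_cast hnm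
    rw [div_le_div_iff₀ (by positivity) (by positivity)]
    nlinarith
  have hun : {z ∈ ball (0 : ℂ) 1 | (f z).im = 0} =
      ⋃ n : ℕ, {z ∈ ball (0 : ℂ) ((n + 1 : ℝ) / (n + 2)) | (f z).im = 0} := by
    ext z
    simp only [mem_iUnion]
    constructor
    · rintro ⟨hz, him⟩
      have hz' : ‖z‖ < 1 := by simpa using hz
      obtain ⟨n, hn⟩ := exists_nat_gt (1 / (1 - ‖z‖))
      refine ⟨n, ?_, him⟩
      rw [mem_ball_zero_iff, lt_div_iff₀ (by positivity)]
      have h1 : 0 < 1 - ‖z‖ := by linarith
      rw [div_lt_iff₀ h1] at hn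
      nlinarith [norm_nonneg z]
    · rintro ⟨n, hz, him⟩
      refine ⟨?_, him⟩
      apply ball_subset_ball _ hz
      rw [div_le_one (by positivity)]
      linarith
  rw [hun, hmono.measure_iUnion]
  exact iSup_le hr

/-- **The Hayman–Wu constant of every line and of every circle is `π²`.**

(1) For EVERY line `L` the least constant `C` such that `|f⁻¹(L)| ≤ C` for all univalent `f` on the
unit disc is `π²`.

(2) For EVERY circle `L` (centre `c`, radius `ρ > 0`) the least constant `C` such that
`|f⁻¹(L)| ≤ C` for all univalent `f` on the unit disc whose image does not contain `L` is `π²`.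

(3) The frozen form: `π²` is the least constant that works for all lines. -/
theorem result :
    (∀ a b : ℂ, b ≠ 0 → IsLeast
      {C : ENNReal | ∀ f : ℂ → ℂ, DifferentiableOn ℂ f (Metric.ball (0:ℂ) 1) →
        Set.InjOn f (Metric.ball (0:ℂ) 1) →
          Measure.hausdorffMeasure 1
            {z ∈ Metric.ball (0:ℂ) 1 | ∃ t : ℝ, f z = a + (t : ℂ) * b} ≤ C}
      (ENNReal.ofReal (Real.pi ^ 2))) ∧
    (∀ (c : ℂ) (ρ : ℝ), 0 < ρ → IsLeast
      {C : ENNReal | ∀ f : ℂ → ℂ, DifferentiableOn ℂ f (Metric.ball (0:ℂ) 1) →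
        Set.InjOn f (Metric.ball (0:ℂ) 1) →
        (¬ {w : ℂ | ‖w - c‖ = ρ} ⊆ f '' Metric.ball (0:ℂ) 1) →
          Measure.hausdorffMeasure 1
            {z ∈ Metric.ball (0:ℂ) 1 | ‖f z - c‖ = ρ} ≤ C}
      (ENNReal.ofReal (Real.pi ^ 2))) ∧
    IsLeast
      {C : ENNReal | ∀ f : ℂ → ℂ, DifferentiableOn ℂ f (Metric.ball (0:ℂ) 1) →
        Set.InjOn f (Metric.ball (0:ℂ) 1) → ∀ a b : ℂ, b ≠ 0 →
          Measure.hausdorffMeasure 1
            {z ∈ Metric.ball (0:ℂ) 1 | ∃ t : ℝ, f z = a + (t : ℂ) * b} ≤ C}
      (ENNReal.ofReal (Real.pi ^ 2)) := by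
  refine ⟨?_, ?_, ?_⟩
  · intro a b hb
    constructor
    · intro f hf hi
      exact HW714.upper_line f hf hi a b hb
    · intro C hC
      apply HW714.t_lower C
      intro f hf hi
      refine le_trans (measure_mono ?_) (hC (fun z => a + f z * b)
        ((differentiableOn_const _).add (hf.mul (differentiableOn_const _))) ?_)
      · rintro z ⟨hz, him⟩
        refine ⟨hz, (f z).re, ?_⟩
        have : ((f z).re : ℂ) = f z := by
          apply Complex.ext <;> simp [him]
        show a + f z * b = a + ((f z).re : ℂ) * b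
        rw [this]
      · intro z hz w hw h
        apply hi hz hw
        have h' : a + f z * b = a + f w * b := h
        exact mul_right_cancel₀ hb (add_left_cancel h')
  · intro c ρ hρ
    constructor
    · intro f hf hi hnot
      obtain ⟨p, hp, hpf⟩ := Set.not_subset.1 hnot
      have hp' : ‖p - c‖ = ρ := hp
      have hfp : ∀ z ∈ ball (0:ℂ) 1, f z - p ≠ 0 := by
        intro z hz h
        exact hpf ⟨z, hz, sub_eq_zero.1 h⟩
      have hpc : p - c ≠ 0 := by
        intro h
        rw [h, norm_zero] at hp'
        exact hρ.ne hp'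
      have h1 := HW714.upper_line (fun z => (p - c) / (f z - p))
        ((differentiableOn_const _).div (hf.sub (differentiableOn_const _)) hfp)
        (by
          intro z hz w hw h
          apply hi hz hw
          have h' : (p - c) / (f z - p) = (p - c) / (f w - p) := h
          rw [div_eq_div_iff (hfp z hz) (hfp w hw)] at h'
          have h'' := mul_left_cancel₀ hpc h'
          linear_combination -h'') (-(1 / 2)) Complex.I Complex.I_ne_zero
      refine (measure_mono ?_).trans h1
      rintro z ⟨hz, hzc⟩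
      refine ⟨hz, ((p - c) / (f z - p)).im, ?_⟩
      -- the real part is `-1/2`
      set u := p - c with hu
      set v := f z - p with hv
      have hv0 : v ≠ 0 := hfp z hz
      have huv : ‖u + v‖ = ‖u‖ := by
        have : u + v = f z - c := by rw [hu, hv]; ring
        rw [this, hzc, hp']
      have hre : (u / v).re = -(1 / 2) := by
        have h2 : ‖u + v‖ ^ 2 = ‖u‖ ^ 2 := by rw [huv]
        rw [← Complex.normSq_eq_norm_sq, ← Complex.normSq_eq_norm_sq, Complex.normSq_add] at h2
        have h3 : 2 * (u * (starRingEnd ℂ) v).re = -Complex.normSq v := by linarith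
        have hnv : Complex.normSq v ≠ 0 := by simpa using hv0
        rw [Complex.div_re]
        have h4 : (u * (starRingEnd ℂ) v).re = u.re * v.re + u.im * v.im := by
          simp [Complex.mul_re]
        rw [h4] at h3
        rw [← add_div, div_eq_iff hnv]
        linarith
      show u / v = -(1 / 2) + (((u / v).im : ℝ) : ℂ) * Complex.I
      apply Complex.ext
      · rw [hre]; simp
      · simp
    · intro C hC
      apply HW714.t_lower C
      intro f hf hi
      refine of_bounded C ?_ f hf hi
      intro f hf hi hb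
      obtain ⟨R, hR⟩ := hb.exists_norm_le
      have hR' : ∀ z ∈ ball (0:ℂ) 1, ‖f z‖ ≤ R := fun z hz => hR _ ⟨z, hz, rfl⟩
      have hR0 : 0 ≤ R := (norm_nonneg _).trans (hR' 0 (mem_ball_self one_pos))
      set S : ℝ := R + 1 with hS
      have hS0 : 0 < S := by linarith
      have hρc : (ρ : ℂ) ≠ 0 := by exact_mod_cast hρ.ne'
      have hSc : (S : ℂ) ≠ 0 := by exact_mod_cast hS0.ne'
      have hden : ∀ z ∈ ball (0:ℂ) 1, f z + S * Complex.I ≠ 0 := by
        intro z hz h
        have h1 : f z = -(S * Complex.I) := eq_neg_of_add_eq_zero_left h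
        have h2 := hR' z hz
        rw [h1, norm_neg, norm_mul, Complex.norm_real, Complex.norm_I, mul_one,
          Real.norm_of_nonneg hS0.le] at h2
        linarith
      have hmain := hC (fun z => c + ρ * ((f z - S * Complex.I) / (f z + S * Complex.I)))
        ((differentiableOn_const _).add ((differentiableOn_const _).mul
          ((hf.sub (differentiableOn_const _)).div (hf.add (differentiableOn_const _)) hden)))
        (by
          intro z hz w hw h
          apply hi hz hw
          have h' : c + ρ * ((f z - S * Complex.I) / (f z + S * Complex.I)) =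
            c + ρ * ((f w - S * Complex.I) / (f w + S * Complex.I)) := h
          have h2 := mul_left_cancel₀ hρc (add_left_cancel h')
          rw [div_eq_div_iff (hden z hz) (hden w hw)] at h2
          have h3 : (2 * (S : ℂ) * Complex.I) * (f z - f w) = 0 := by linear_combination h2
          have h4 : (2 * (S : ℂ) * Complex.I) ≠ 0 := by
            simp [hSc, Complex.I_ne_zero]
          exact sub_eq_zero.1 ((mul_eq_zero.1 h3).resolve_left h4))
        (by
          intro hsub
          have hmem : c + ρ ∈ {w : ℂ | ‖w - c‖ = ρ} := by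
            show ‖c + (ρ:ℂ) - c‖ = ρ
            rw [add_sub_cancel_left, Complex.norm_real, Real.norm_of_nonneg hρ.le]
          obtain ⟨z, hz, hzz⟩ := hsub hmem
          have h1 : (ρ : ℂ) * ((f z - S * Complex.I) / (f z + S * Complex.I)) = ρ * 1 := by
            rw [mul_one]
            exact add_left_cancel hzz
          have h2 := mul_left_cancel₀ hρc h1
          rw [div_eq_one_iff_eq (hden z hz)] at h2
          have h3 : (2 * (S : ℂ) * Complex.I) = 0 := by linear_combination -h2
          have h4 : (2 * (S : ℂ) * Complex.I) ≠ 0 := by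
            simp [hSc, Complex.I_ne_zero]
          exact h4 h3)
      refine (measure_mono ?_).trans hmain
      rintro z ⟨hz, him⟩
      refine ⟨hz, ?_⟩
      show ‖c + ρ * ((f z - S * Complex.I) / (f z + S * Complex.I)) - c‖ = ρ
      have hn : ‖f z - S * Complex.I‖ = ‖f z + S * Complex.I‖ := by
        have h5 : f z + S * Complex.I = (starRingEnd ℂ) (f z - S * Complex.I) := by
          rw [map_sub, map_mul, Complex.conj_I, Complex.conj_ofReal, Complex.conj_eq_iff_im.2 him]
          ring
        rw [h5, Complex.norm_conj]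
      have hd0 : ‖f z + S * Complex.I‖ ≠ 0 := norm_ne_zero_iff.2 (hden z hz)
      rw [add_sub_cancel_left, norm_mul, Complex.norm_real, Real.norm_of_nonneg hρ.le, norm_div, hn,
        div_self hd0, mul_one]
  · constructor
    · intro f hf hi a b hb
      exact HW714.upper_line f hf hi a b hb
    · intro C hC
      apply HW714.t_lower C
      intro f hf hi
      refine le_trans (measure_mono ?_) (hC f hf hi 0 1 one_ne_zero)
      rintro z ⟨hz, him⟩
      refine ⟨hz, (f z).re, ?_⟩
      apply Complex.ext <;> simp [him]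

end Pool.Agent.Results.MP_0a9e96_an.LinesAndCircles
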